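import Pool.Agent.LE.StmtsX
import Pool.Agent.Helper15_LEW.NUM

/-!
# Row NUX: the numbers of the band edge bound
-/

set_option autoImplicit false

open Real Filter Topology

namespace Pool.Agent.LE.H42W

open Pool.Agent.LE.H15W

theorem nux : NuxStmt := by
  intro d A K hd hA hK
  have hd1 : (1 : ℝ) ≤ d := by exact_mod_cast hd
  have hd0 : (0 : ℝ) < d := by linarith only [hd1]
  set c₁ : ℝ := 1 / (4 * d) with hc₁
  set c₂ : ℝ := 1 / (16 * d ^ 2) with hc₂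
  set c : ℝ := 3 / (16 * d ^ 2) with hc
  have hc1 : 0 < c₁ := by positivity
  have hc2 : 0 < c₂ := by positivity
  have hc0 : 0 < c := by positivity
  have hcd : d * (c + c₂) = c₁ := by
    rw [hc₁, hc₂, hc]
    field_simp
    ring
  have hc11 : c₁ ≤ 1 := by
    rw [hc₁, div_le_one (by positivity)]
    linarith only [hd1]
  have hc12 : (c₁ + c₂) * d ≤ 1 / 2 := by
    have h1 : (c₁ + c₂) * d = 1 / 4 + 1 / (16 * d) := by
      rw [hc₁, hc₂]
      field_simp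
    have h2 : 1 / (16 * (d : ℝ)) ≤ 1 / 16 := by
      apply one_div_le_one_div_of_le <;> linarith only [hd1]
    rw [h1]
    linarith only [h2]
  obtain ⟨q₁, hq₁⟩ := exists_nat_ge ((A + d * c₁ + c₂ * (d + 1) + c₁) / c₂)
  refine ⟨max d q₁, c, le_max_left _ _, hc0, ?_⟩
  set q := max d q₁ with hq
  have hqq : A + d * c₁ + c₂ * (d + 1) + c₁ ≤ c₂ * q := by
    have h1 : (q₁ : ℝ) ≤ q := by exact_mod_cast le_max_right _ _
    have h2 : (A + d * c₁ + c₂ * (d + 1) + c₁) / c₂ ≤ q := hq₁.trans h1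
    rw [div_le_iff₀ hc2] at h2
    linarith only [h2]
  intro C' hC'
  obtain ⟨K₀, hK₀, hK₀'⟩ := exists_K0 (log (16 * d)) d (d * (c₁ + c₂) / c₂) hd0.le
  have hK0 : 0 < K₀ := by linarith only [hK₀]
  obtain ⟨K₂, hK₂, hexp₂⟩ := exp_le_rpow (K₀ / 2) c₂ (d * (c₁ + c₂) + 1 + c₁)
    (by positivity) hc2
  set T₁ : ℝ := 4 * 3 ^ d with hT₁
  set T₂ : ℝ := 128 * d * 3 ^ d * (26 * K₀) ^ d * K₂ with hT₂
  set T₃ : ℝ := 4 * 3 ^ d with hT₃
  set T₄ : ℝ := (2 ^ d + 2 * 17 ^ d) * (4 * 3 ^ d * (d * (C' * 2 ^ A * (2 * K₀) ^ (d + 1))))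
    with hT₄
  have hT₁0 : 0 < T₁ := by positivity
  have hT₂0 : 0 < T₂ := by positivity
  have hT₃0 : 0 < T₃ := by positivity
  have hT₄0 : 0 < T₄ := by positivity
  set K' : ℝ := T₁ + T₂ + T₃ + T₄ with hK'
  have hKpos : 0 < K' := by positivity
  set b : ℝ := K * (22 * K₀) ^ d with hb
  have hb0 : 0 < b := by positivity
  have hb2 : 0 ≤ b ^ 2 := sq_nonneg b
  refine ⟨17 * (K' + 1) + b ^ 2, by linarith only [hb2, hT₄0, hT₂0, hT₁0], ?_⟩
  intro σ κ L p hσ hσ1 hCL hσL hp hpL hκ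
  have hσ0 : 0 < |σ| := abs_pos.mpr hσ
  have hL1 : 1 ≤ L := by linarith only [hCL, hb2, hT₄0, hT₂0, hT₁0]
  have hL0 : 0 < L := by linarith only [hCL, hb2, hT₄0, hT₂0, hT₁0]
  have hκ' : 17 * (K' + 1) * L ^ (-c) ≤ κ := by
    refine le_trans ?_ hκ
    apply mul_le_mul_of_nonneg_right _ (by positivity)
    linarith only [hb2]
  have hLc1 : 1 ≤ L ^ c₁ := one_le_rpow hL1 hc1.le
  have hLc2 : 1 ≤ L ^ c₂ := one_le_rpow hL1 hc2.le
  set M : ℕ := ⌊L ^ c₁⌋₊ with hM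
  set s : ℕ := ⌈K₀ * L ^ c₂⌉₊ with hs
  have hM1 : 1 ≤ M := by
    rw [hM, Nat.one_le_floor_iff]
    exact hLc1
  have hM1' : (1 : ℝ) ≤ M := by exact_mod_cast hM1
  have hMle : (M : ℝ) ≤ L ^ c₁ := Nat.floor_le (by positivity)
  have hMge : L ^ c₁ / 2 ≤ M := by
    have h1 : L ^ c₁ < M + 1 := Nat.lt_floor_add_one _
    linarith only [h1, hM1']
  have hsge : K₀ * L ^ c₂ ≤ s := Nat.le_ceil _
  have hKL2 : 1 ≤ K₀ * L ^ c₂ := one_le_mul_of_one_le_of_one_le hK₀ hLc2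
  have hs1' : (1 : ℝ) ≤ s := by linarith only [hKL2, hsge]
  have hs1 : 1 ≤ s := by exact_mod_cast hs1'
  have hsle : (s : ℝ) ≤ 2 * K₀ * L ^ c₂ := by
    have h1 : (s : ℝ) < K₀ * L ^ c₂ + 1 := Nat.ceil_lt_add_one (by positivity)
    linarith only [h1, hKL2]
  have hMs1 : (1 : ℝ) ≤ M * s := one_le_mul_of_one_le_of_one_le hM1' hs1'
  have hMs : (M : ℝ) * s ≤ 2 * K₀ * L ^ (c₁ + c₂) := by
    rw [rpow_add hL0]
    calc (M : ℝ) * s ≤ L ^ c₁ * (2 * K₀ * L ^ c₂) :=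
          mul_le_mul hMle hsle (by positivity) (by positivity)
      _ = 2 * K₀ * (L ^ c₁ * L ^ c₂) := by ring
  set X : ℝ := 8 * (M * s) + 3 with hX
  have hX1 : 1 ≤ X := by rw [hX]; linarith only [hMs1]
  have hX0 : 0 < X := by linarith only [hMs1]
  have hLcc : 1 ≤ L ^ (c₁ + c₂) := one_le_rpow hL1 (by positivity)
  have hKL : 1 ≤ K₀ * L ^ (c₁ + c₂) := one_le_mul_of_one_le_of_one_le hK₀ hLcc
  have hXle : X ≤ 22 * K₀ * L ^ (c₁ + c₂) := by rw [hX]; linarith only [hMs, hMs1]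
  have hX5 : 8 * ((M : ℝ) * s) + 5 ≤ 26 * K₀ * L ^ (c₁ + c₂) := by linarith only [hMs, hMs1]
  have hpowd : ∀ k : ℕ, (L ^ (c₁ + c₂)) ^ k = L ^ ((c₁ + c₂) * k) := by
    intro k
    rw [← rpow_natCast, ← rpow_mul hL0.le]
  have hXd : X ^ d ≤ (22 * K₀) ^ d * L ^ ((c₁ + c₂) * d) := by
    calc X ^ d ≤ (22 * K₀ * L ^ (c₁ + c₂)) ^ d := pow_le_pow_left₀ hX0.le hXle _
      _ = _ := by rw [mul_pow, hpowd]
  have hKX : K * X ^ d ≤ L := by
    have h1 : b ≤ L ^ (1 / 2 : ℝ) := by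
      have h2 : b ^ 2 ≤ L := by linarith only [hCL, hT₄0, hT₂0, hT₁0]
      have h3 : (b ^ 2) ^ (1 / 2 : ℝ) = b := by
        rw [← Real.sqrt_eq_rpow, Real.sqrt_sq hb0.le]
      calc b = (b ^ 2) ^ (1 / 2 : ℝ) := h3.symm
        _ ≤ _ := rpow_le_rpow (by positivity) h2 (by norm_num)
    have h4 : L ^ ((c₁ + c₂) * d) ≤ L ^ (1 / 2 : ℝ) := rpow_le_rpow_of_exponent_le hL1 hc12
    calc K * X ^ d ≤ K * ((22 * K₀) ^ d * L ^ ((c₁ + c₂) * d)) :=
          mul_le_mul_of_nonneg_left hXd (by linarith only [hK])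
      _ = b * L ^ ((c₁ + c₂) * d) := by rw [hb]; ring
      _ ≤ L ^ (1 / 2 : ℝ) * L ^ (1 / 2 : ℝ) := mul_le_mul h1 h4 (by positivity) (by positivity)
      _ = L := by rw [← rpow_add hL0]; norm_num
  have hXL : X ≤ L := by
    have h1 : X ≤ X ^ d := le_self_pow₀ hX1 (by omega)
    have h2 : X ^ d ≤ K * X ^ d := le_mul_of_one_le_left (by positivity) hK
    linarith only [h2, h1, hKX]
  refine ⟨s, M, L ^ c₂, hs1, hM1, hLc2, hKX, hXL, ?_, ?_⟩
  · -- the logarithm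
    have h1 : log (16 * d * X ^ d) = log (16 * d) + d * log X := by
      rw [log_mul (by positivity) (by positivity), log_pow]
    have h2 : log X ≤ log (22 * K₀) + (c₁ + c₂) * log L := by
      calc log X ≤ log (22 * K₀ * L ^ (c₁ + c₂)) := log_le_log hX0 hXle
        _ = log (22 * K₀) + (c₁ + c₂) * log L := by
            rw [log_mul (by positivity) (by positivity), log_rpow hL0]
    have h3 : log L ≤ L ^ c₂ / c₂ := by
      have h4 : log (L ^ c₂) ≤ L ^ c₂ := by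
        have := Real.log_le_sub_one_of_pos (show 0 < L ^ c₂ by positivity)
        linarith only [this]
      rw [log_rpow hL0] at h4
      rw [le_div_iff₀ hc2]
      linarith only [h4]
    have h5 : (d : ℝ) * log X ≤ d * log (22 * K₀) + d * (c₁ + c₂) / c₂ * L ^ c₂ := by
      have h6 : (c₁ + c₂) * log L ≤ (c₁ + c₂) * (L ^ c₂ / c₂) :=
        mul_le_mul_of_nonneg_left h3 (by positivity)
      have h7 : (d : ℝ) * log X ≤ d * (log (22 * K₀) + (c₁ + c₂) * (L ^ c₂ / c₂)) :=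
        mul_le_mul_of_nonneg_left (by linarith only [h6, h2]) hd0.le
      refine h7.trans (le_of_eq ?_)
      ring
    have h8 : 0 ≤ log (16 * (d : ℝ)) := log_nonneg (by linarith only [hd1])
    have h9 : 0 ≤ (d : ℝ) * log (22 * K₀) := mul_nonneg hd0.le (log_nonneg (by linarith only [hK₀]))
    have h10 : log (16 * (d : ℝ)) + d * log (22 * K₀) ≤
        (log (16 * (d : ℝ)) + d * log (22 * K₀)) * L ^ c₂ :=
      le_mul_of_one_le_right (by linarith only [h9, h8]) hLc2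
    have h11 : (log (16 * (d : ℝ)) + d * log (22 * K₀) + d * (c₁ + c₂) / c₂) * L ^ c₂ ≤
        K₀ / 2 * L ^ c₂ := mul_le_mul_of_nonneg_right hK₀' (by positivity)
    rw [h1]
    have h12 : (log (16 * (d : ℝ)) + d * log (22 * K₀) + d * (c₁ + c₂) / c₂) * L ^ c₂ =
        (log (16 * (d : ℝ)) + d * log (22 * K₀)) * L ^ c₂ + d * (c₁ + c₂) / c₂ * L ^ c₂ := by
      ring
    linarith only [h11, h10, h5, hsge]
  · -- the main inequality
    have hLn : 0 < L ^ (-c₁) := by positivity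
    have hexps : exp (-(s / 2 : ℝ)) ≤ K₂ * L ^ (-(d * (c₁ + c₂) + 1 + c₁)) := by
      refine le_trans (exp_le_exp.mpr ?_) (hexp₂ L hL1)
      linarith only [hsge]
    have hX5d : (8 * ((M : ℝ) * s) + 5) ^ d ≤ (26 * K₀) ^ d * L ^ ((c₁ + c₂) * d) := by
      calc (8 * ((M : ℝ) * s) + 5) ^ d ≤ (26 * K₀ * L ^ (c₁ + c₂)) ^ d :=
            pow_le_pow_left₀ (by positivity) hX5 _
        _ = _ := by rw [mul_pow, hpowd]
    have e2 : L ^ ((c₁ + c₂) * d) * L * L ^ (-(d * (c₁ + c₂) + 1 + c₁)) = L ^ (-c₁) := by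
      have h1 : L ^ ((c₁ + c₂) * d) * L = L ^ ((c₁ + c₂) * d + 1) := by
        rw [rpow_add hL0, rpow_one]
      rw [h1, ← rpow_add hL0]
      ring_nf
    have b2 : (8 * ((M : ℝ) * s) + 5) ^ d * (L * exp (-(s / 2 : ℝ))) ≤
        (26 * K₀) ^ d * K₂ * L ^ (-c₁) := by
      calc (8 * ((M : ℝ) * s) + 5) ^ d * (L * exp (-(s / 2 : ℝ))) ≤
            ((26 * K₀) ^ d * L ^ ((c₁ + c₂) * d)) *
              (L * (K₂ * L ^ (-(d * (c₁ + c₂) + 1 + c₁)))) :=
            mul_le_mul hX5d (mul_le_mul_of_nonneg_left hexps hL0.le)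
              (mul_nonneg hL0.le (exp_pos _).le) (by positivity)
        _ = (26 * K₀) ^ d * K₂ *
            (L ^ ((c₁ + c₂) * d) * L * L ^ (-(d * (c₁ + c₂) + 1 + c₁))) := by ring
        _ = _ := by rw [e2]
    have h16 : 16 / |σ| ≤ 32 * L := by
      have h1 : 16 / |σ| = 16 * (1 / |σ|) := by ring
      rw [h1]
      linarith only [hσL]
    have t12 : 4 * (p + d * (8 * ((M : ℝ) * s) + 5) ^ d *
        (16 / |σ| * exp (-(s / 2 : ℝ)))) * 3 ^ d ≤ (T₁ + T₂) * L ^ (-c₁) := by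
      have h3 : (0 : ℝ) < 3 ^ d := by positivity
      have h5 : p ≤ L ^ (-c₁) := by
        refine hpL.trans ?_
        rw [one_div, ← rpow_neg_one]
        exact rpow_le_rpow_of_exponent_le hL1 (by linarith only [hc11])
      have h6 : d * (8 * ((M : ℝ) * s) + 5) ^ d * (16 / |σ| * exp (-(s / 2 : ℝ))) ≤
          32 * d * ((8 * ((M : ℝ) * s) + 5) ^ d * (L * exp (-(s / 2 : ℝ)))) := by
        have h7 : 16 / |σ| * exp (-(s / 2 : ℝ)) ≤ 32 * L * exp (-(s / 2 : ℝ)) :=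
          mul_le_mul_of_nonneg_right h16 (exp_pos _).le
        calc d * (8 * ((M : ℝ) * s) + 5) ^ d * (16 / |σ| * exp (-(s / 2 : ℝ)))
            ≤ d * (8 * ((M : ℝ) * s) + 5) ^ d * (32 * L * exp (-(s / 2 : ℝ))) :=
              mul_le_mul_of_nonneg_left h7 (by positivity)
          _ = _ := by ring
      have h8 : 32 * d * ((8 * ((M : ℝ) * s) + 5) ^ d * (L * exp (-(s / 2 : ℝ)))) ≤
          32 * d * ((26 * K₀) ^ d * K₂ * L ^ (-c₁)) := mul_le_mul_of_nonneg_left b2 (by positivity)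
      have h4 : (T₁ + T₂) * L ^ (-c₁) = 4 * (L ^ (-c₁) +
          32 * d * ((26 * K₀) ^ d * K₂ * L ^ (-c₁))) * 3 ^ d := by
        rw [hT₁, hT₂]
        ring
      rw [h4]
      apply mul_le_mul_of_nonneg_right _ h3.le
      linarith only [h8, h6, h5]
    have t3 : 2 * 3 ^ d / (M : ℝ) ≤ T₃ * L ^ (-c₁) := by
      rw [div_le_iff₀ (by linarith only [hM1']), hT₃, rpow_neg hL0.le]
      have h1 : 0 < L ^ c₁ := by positivity
      have h2 : 4 * 3 ^ d * (L ^ c₁)⁻¹ * (L ^ c₁ / 2) = 2 * 3 ^ d := by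
        field_simp
        norm_num
      calc (2 : ℝ) * 3 ^ d = 4 * 3 ^ d * (L ^ c₁)⁻¹ * (L ^ c₁ / 2) := h2.symm
        _ ≤ 4 * 3 ^ d * (L ^ c₁)⁻¹ * M := mul_le_mul_of_nonneg_left hMge (by positivity)
    have t4 : (2 ^ d + 2 * (8 * (M : ℝ) + 9) ^ d / M) *
        (4 * 3 ^ d * (d * (C' * |σ| ^ (-A) * (s : ℝ) ^ (q + d + 1) / (L ^ c₂ * s) ^ q))) ≤
          T₄ * L ^ (-c₁) := by
      have h1 : (8 * (M : ℝ) + 9) ^ d / M ≤ 17 ^ d * L ^ (c₁ * d) := by
        have h2 : (8 * (M : ℝ) + 9) ^ d / M ≤ (8 * (M : ℝ) + 9) ^ d :=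
          div_le_self (by positivity) hM1'
        refine h2.trans ?_
        calc (8 * (M : ℝ) + 9) ^ d ≤ (17 * L ^ c₁) ^ d :=
              pow_le_pow_left₀ (by positivity) (by linarith only [hMle, hLc1]) _
          _ = 17 ^ d * L ^ (c₁ * d) := by
              rw [mul_pow, ← rpow_natCast (L ^ c₁) d, ← rpow_mul hL0.le]
      have h1L : (1 : ℝ) ≤ L ^ (c₁ * d) := one_le_rpow hL1 (by positivity)
      have h5 : 2 ^ d + 2 * (8 * (M : ℝ) + 9) ^ d / M ≤ (2 ^ d + 2 * 17 ^ d) * L ^ (c₁ * d) := by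
        have h6 : (2 : ℝ) ^ d ≤ 2 ^ d * L ^ (c₁ * d) := le_mul_of_one_le_right (by positivity) h1L
        have h7 : 2 * (8 * (M : ℝ) + 9) ^ d / M = 2 * ((8 * (M : ℝ) + 9) ^ d / M) := by ring
        rw [h7]
        have h8 : (2 ^ d + 2 * 17 ^ d) * L ^ (c₁ * d) =
            2 ^ d * L ^ (c₁ * d) + 2 * (17 ^ d * L ^ (c₁ * d)) := by ring
        linarith only [h6, h1]
      have hs0 : (0 : ℝ) < s := by linarith only [hKL2, hsge]
      have h9 : (s : ℝ) ^ (q + d + 1) / (L ^ c₂ * s) ^ q = (s : ℝ) ^ (d + 1) * L ^ (-(c₂ * q)) := by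
        rw [mul_pow, ← rpow_natCast (L ^ c₂) q, ← rpow_mul hL0.le, rpow_neg hL0.le, add_assoc,
          pow_add]
        have : 0 < L ^ (c₂ * (q : ℝ)) := by positivity
        field_simp
      have h10 : (s : ℝ) ^ (d + 1) ≤ (2 * K₀) ^ (d + 1) * L ^ (c₂ * (d + 1)) := by
        calc (s : ℝ) ^ (d + 1) ≤ (2 * K₀ * L ^ c₂) ^ (d + 1) := pow_le_pow_left₀ hs0.le hsle _
          _ = (2 * K₀) ^ (d + 1) * L ^ (c₂ * (d + 1)) := by
              rw [mul_pow, ← rpow_natCast (L ^ c₂) (d + 1), ← rpow_mul hL0.le]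
              push_cast
              rfl
      have hσA : |σ| ^ (-A) ≤ 2 ^ A * L ^ A := by
        have h20 : |σ| ^ (-A) = (1 / |σ|) ^ A := by
          rw [one_div, inv_rpow hσ0.le, rpow_neg hσ0.le]
        rw [h20, ← mul_rpow (by norm_num) hL0.le]
        exact rpow_le_rpow (by positivity) hσL (by linarith only [hA])
      have h11 : C' * |σ| ^ (-A) * (s : ℝ) ^ (q + d + 1) / (L ^ c₂ * s) ^ q ≤
          C' * 2 ^ A * L ^ A * ((s : ℝ) ^ (d + 1) * L ^ (-(c₂ * q))) := by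
        rw [mul_div_assoc, h9]
        apply mul_le_mul_of_nonneg_right _ (by positivity)
        calc C' * |σ| ^ (-A) ≤ C' * (2 ^ A * L ^ A) := mul_le_mul_of_nonneg_left hσA hC'.le
          _ = _ := by ring
      have h12 : C' * 2 ^ A * L ^ A * ((s : ℝ) ^ (d + 1) * L ^ (-(c₂ * q))) ≤
          C' * 2 ^ A * (2 * K₀) ^ (d + 1) * L ^ (A + c₂ * (d + 1) - c₂ * q) := by
        have h13 : L ^ (A + c₂ * (d + 1) - c₂ * q) =
            L ^ A * L ^ (c₂ * ((d : ℝ) + 1)) * L ^ (-(c₂ * (q : ℝ))) := by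
          rw [← rpow_add hL0, ← rpow_add hL0]
          ring_nf
        rw [h13]
        calc C' * 2 ^ A * L ^ A * ((s : ℝ) ^ (d + 1) * L ^ (-(c₂ * q))) ≤
              C' * 2 ^ A * L ^ A * (((2 * K₀) ^ (d + 1) * L ^ (c₂ * (d + 1))) *
                L ^ (-(c₂ * q))) :=
              mul_le_mul_of_nonneg_left (mul_le_mul_of_nonneg_right h10 (by positivity))
                (by positivity)
          _ = _ := by ring
      have h14 : L ^ (c₁ * d) * L ^ (A + c₂ * (d + 1) - c₂ * q) ≤ L ^ (-c₁) := by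
        rw [← rpow_add hL0]
        refine rpow_le_rpow_of_exponent_le hL1 ?_
        linarith only [hqq]
      calc (2 ^ d + 2 * (8 * (M : ℝ) + 9) ^ d / M) *
            (4 * 3 ^ d * (d * (C' * |σ| ^ (-A) * (s : ℝ) ^ (q + d + 1) / (L ^ c₂ * s) ^ q))) ≤
            ((2 ^ d + 2 * 17 ^ d) * L ^ (c₁ * d)) *
            (4 * 3 ^ d * (d * (C' * 2 ^ A * (2 * K₀) ^ (d + 1) *
              L ^ (A + c₂ * (d + 1) - c₂ * q)))) := by
            refine mul_le_mul h5 ?_ (by positivity) (by positivity)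
            exact mul_le_mul_of_nonneg_left (mul_le_mul_of_nonneg_left (h11.trans h12)
              (by positivity)) (by positivity)
        _ = T₄ * (L ^ (c₁ * d) * L ^ (A + c₂ * (d + 1) - c₂ * q)) := by
            rw [hT₄]
            ring
        _ ≤ T₄ * L ^ (-c₁) := mul_le_mul_of_nonneg_left h14 hT₄0.le
    have hrhs : K' * L ^ (-c₁) < (κ / (17 * L ^ c₂)) ^ d := by
      have h1 : (K' + 1) * (L ^ (-c) * L ^ (-c₂)) ≤ κ / (17 * L ^ c₂) := by
        rw [le_div_iff₀ (by positivity)]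
        have h2 : L ^ (-c₂) * L ^ c₂ = 1 := by
          rw [← rpow_add hL0]
          simp
        calc (K' + 1) * (L ^ (-c) * L ^ (-c₂)) * (17 * L ^ c₂) =
              17 * (K' + 1) * L ^ (-c) * (L ^ (-c₂) * L ^ c₂) := by ring
          _ ≤ κ := by rw [h2, mul_one]; exact hκ'
      have h3 : ((K' + 1) * (L ^ (-c) * L ^ (-c₂))) ^ d = (K' + 1) ^ d * L ^ (-c₁) := by
        rw [← rpow_add hL0, mul_pow]
        congr 1
        rw [← rpow_natCast, ← rpow_mul hL0.le]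
        congr 1
        rw [← hcd]
        ring
      have h4 : K' + 1 ≤ (K' + 1) ^ d := le_self_pow₀ (by linarith only [hT₄0, hT₂0, hT₁0]) (by omega)
      calc K' * L ^ (-c₁) < (K' + 1) * L ^ (-c₁) := mul_lt_mul_of_pos_right (by linarith only []) hLn
        _ ≤ (K' + 1) ^ d * L ^ (-c₁) := mul_le_mul_of_nonneg_right h4 hLn.le
        _ = ((K' + 1) * (L ^ (-c) * L ^ (-c₂))) ^ d := h3.symm
        _ ≤ (κ / (17 * L ^ c₂)) ^ d := pow_le_pow_left₀ (by positivity) h1 _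
    refine lt_of_le_of_lt ?_ hrhs
    have hsum : K' * L ^ (-c₁) = (T₁ + T₂) * L ^ (-c₁) + T₃ * L ^ (-c₁) + T₄ * L ^ (-c₁) := by
      rw [hK']
      ring
    rw [hsum]
    exact add_le_add (add_le_add t12 t3) t4

end Pool.Agent.LE.H42W
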